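import Mathlib

/-! Homomorphic images of products of semigroups of bounded size: powers, idempotents, filters. -/

namespace Pool.Agent.H.MP_88bd66_lc

open Function

/-- `pw x n` is the power of `x` with exponent `n + 1`. -/
def pw {S : Type} [Mul S] (x : S) : ℕ → S
  | 0 => x
  | n + 1 => pw x n * x

theorem pw_add {S : Type} [Semigroup S] (x : S) (m n : ℕ) :
    pw x (m + n + 1) = pw x m * pw x n := by
  induction n with
  | zero => rfl
  | succ n ih =>
    show pw x (m + n + 1) * x = pw x m * (pw x n * x)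
    rw [ih, mul_assoc]

theorem map_pw {S N : Type} [Mul S] [Mul N] (f : S →ₙ* N) (x : S) (n : ℕ) :
    f (pw x n) = pw (f x) n := by
  induction n with
  | zero => rfl
  | succ n ih => simp only [pw, map_mul, ih]

theorem pw_apply {ι : Type} {T : ι → Type} [∀ i, Mul (T i)] (x : ∀ i, T i) (n : ℕ) (i : ι) :
    pw x n i = pw (x i) n := by
  induction n with
  | zero => rfl
  | succ n ih => simp only [pw, Pi.mul_apply, ih]

theorem pw_eq_pow {S : Type} [Monoid S] (x : S) (n : ℕ) : pw x n = x ^ (n + 1) := by
  induction n with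
  | zero => simp [pw]
  | succ n ih => rw [pw, ih, ← pow_succ]

theorem coe_pw {S : Type} [Semigroup S] (x : S) (n : ℕ) :
    ((pw x n : S) : WithOne S) = (x : WithOne S) ^ (n + 1) := by
  induction n with
  | zero => simp [pw]
  | succ n ih => rw [pw, WithOne.coe_mul, ih, ← pow_succ]

theorem pw_idem {S : Type} [Semigroup S] {e : S} (he : e * e = e) (n : ℕ) : pw e n = e := by
  induction n with
  | zero => rfl
  | succ n ih => rw [pw, ih, he]

theorem mul_pw_of {S : Type} [Semigroup S] {p u : S} (h : p * u = p) (n : ℕ) :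
    p * pw u n = p := by
  induction n with
  | zero => exact h
  | succ n ih => rw [pw, ← mul_assoc, ih, h]

theorem pigeon {S : Type} [Finite S] {B : ℕ} (hB : Nat.card S ≤ B) (f : ℕ → S) :
    ∃ i j, i < j ∧ j ≤ B ∧ f i = f j := by
  have := Fintype.ofFinite S
  obtain ⟨i, j, hij, h⟩ := Fintype.exists_ne_map_eq_of_card_lt (fun i : Fin (B + 1) => f i)
    (by rw [Fintype.card_fin, ← Nat.card_eq_fintype_card]; omega)
  rcases lt_or_gt_of_ne hij with h1 | h1
  · exact ⟨i, j, h1, by have := j.2; omega, h⟩
  · exact ⟨j, i, h1, by have := i.2; omega, h.symm⟩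

/-- The exponent: `ex B + 1 = B !`. -/
def ex (B : ℕ) : ℕ := B.factorial - 1

theorem ex_succ (B : ℕ) : ex B + 1 = B.factorial := by
  have := B.factorial_pos
  unfold ex; omega

theorem om_idem {S : Type} [Semigroup S] [Finite S] {B : ℕ} (hB : Nat.card S ≤ B) (x : S) :
    pw x (ex B) * pw x (ex B) = pw x (ex B) := by
  obtain ⟨i, j, hij, hj, h⟩ := pigeon hB (pw x)
  obtain ⟨d, rfl⟩ := Nat.exists_eq_add_of_lt hij
  have h1 : ∀ n, pw x (i + n + (d + 1)) = pw x (i + n) := by
    intro n
    induction n with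
    | zero => exact h.symm
    | succ n ih =>
      have : i + (n + 1) + (d + 1) = (i + n + (d + 1)) + 1 := by omega
      rw [this, pw, ih]; rfl
  have h2 : ∀ c n, pw x (i + n + c * (d + 1)) = pw x (i + n) := by
    intro c n
    induction c with
    | zero => simp
    | succ c ih =>
      have : i + n + (c + 1) * (d + 1) = i + (n + c * (d + 1)) + (d + 1) := by ring
      rw [this, h1, ← add_assoc, ih]
  obtain ⟨c, hc⟩ : d + 1 ∣ B.factorial := Nat.dvd_factorial (by omega) (by omega)
  have h3 : i ≤ ex B := by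
    have := Nat.self_le_factorial B
    have := ex_succ B
    omega
  obtain ⟨n, hn⟩ := Nat.exists_eq_add_of_le h3
  rw [← pw_add]
  have : ex B + ex B + 1 = i + n + c * (d + 1) := by
    have := ex_succ B
    rw [mul_comm c]; omega
  rw [this, h2, hn]

/-- Product of a nonempty list. -/
def lp {S : Type} [Mul S] (x : S) (l : List S) : S := l.foldl (· * ·) x

theorem lp_append {S : Type} [Mul S] (x : S) (l l' : List S) :
    lp x (l ++ l') = lp (lp x l) l' := List.foldl_append

theorem lp_mul {S : Type} [Semigroup S] (x y : S) (l : List S) : lp (x * y) l = x * lp y l := by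
  induction l generalizing y with
  | nil => rfl
  | cons a l ih =>
    show lp (x * y * a) l = x * lp (y * a) l
    rw [mul_assoc, ih]

theorem map_lp {S N : Type} [Mul S] [Mul N] (f : S →ₙ* N) (x : S) (l : List S) :
    f (lp x l) = lp (f x) (l.map f) := by
  induction l generalizing x with
  | nil => rfl
  | cons a l ih =>
    show f (lp (x * a) l) = lp (f x * f a) (l.map f)
    rw [ih, map_mul]

theorem coe_lp {S : Type} [Semigroup S] (x : S) (l : List S) :
    ((lp x l : S) : WithOne S) = (List.map (fun a : S => (a : WithOne S)) (x :: l)).prod := by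
  induction l generalizing x with
  | nil => simp [lp]
  | cons a l ih =>
    show ((lp (x * a) l : S) : WithOne S) = _
    rw [ih]; simp [mul_assoc]

theorem lp_split {S : Type} [Semigroup S] [Finite S] {B : ℕ} (hB : Nat.card S ≤ B) (x : S)
    (l : List S) (hl : B ≤ l.length) : ∃ s e t : S, e * e = e ∧ lp x l = s * e * t := by
  obtain ⟨i, j, hij, hj, h⟩ := pigeon hB (fun n => lp x (l.take n))
  have h1 : l.take j = l.take i ++ (l.take j).drop i := by
    conv_lhs => rw [← List.take_append_drop i (l.take j)]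
    rw [List.take_take, min_eq_left hij.le]
  obtain ⟨a, r, har⟩ : ∃ a r, (l.take j).drop i = a :: r := by
    apply List.exists_cons_of_ne_nil
    intro h0
    have := congrArg List.length h0
    simp at this; omega
  have h2 : lp x (l.take i) * lp a r = lp x (l.take i) := by
    have h3 : lp x (l.take j) = lp x (l.take i) * lp a r := by
      rw [h1, lp_append, har]
      exact lp_mul _ _ _
    rw [← h3]; exact h.symm
  have h4 := mul_pw_of h2 (ex B)
  have h5 := om_idem hB (lp a r)
  refine ⟨lp x (l.take i), pw (lp a r) (ex B), lp (pw (lp a r) (ex B)) (l.drop i), h5, ?_⟩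
  rw [← lp_mul, h4, h4, ← lp_append, List.take_append_drop]

/-- A presentation of `N` as an image of a finite product of semigroups of size at most `B`. -/
structure Cov (B : ℕ) (N : Type) [Semigroup N] where
  ι : Type
  fι : Finite ι
  T : ι → Type
  sg : ∀ i, Semigroup (T i)
  fin : ∀ i, Finite (T i)
  card : ∀ i, Nat.card (T i) ≤ B
  π : (∀ i, T i) →ₙ* N
  surj : Surjective π

attribute [instance] Cov.fι Cov.sg Cov.fin

variable {B : ℕ} {N : Type} [Semigroup N]

theorem Cov.omT (C : Cov B N) (t : ∀ i, C.T i) :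
    pw t (ex B) * pw t (ex B) = pw t (ex B) := by
  funext i
  rw [Pi.mul_apply, pw_apply]
  exact om_idem (C.card i) _

theorem Cov.om (C : Cov B N) (x : N) : pw x (ex B) * pw x (ex B) = pw x (ex B) := by
  obtain ⟨t, rfl⟩ := C.surj x
  rw [← map_pw, ← map_mul, C.omT]

theorem Cov.lift_idem (C : Cov B N) {e : N} (he : e * e = e) :
    ∃ ε, ε * ε = ε ∧ C.π ε = e := by
  obtain ⟨t, rfl⟩ := C.surj e
  exact ⟨pw t (ex B), C.omT t, by rw [map_pw, pw_idem he]⟩

theorem Cov.split (C : Cov B N) (x : N) (l : List N) (hl : B ≤ l.length) :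
    ∃ s e t : N, e * e = e ∧ lp x l = s * e * t := by
  obtain ⟨x', rfl⟩ := C.surj x
  obtain ⟨l', rfl⟩ := List.map_surjective_iff.2 C.surj l
  rw [List.length_map] at hl
  have h := fun i => lp_split (C.card i) (x' i) (l'.map (Pi.evalMulHom C.T i)) (by simpa using hl)
  choose s e t he h using h
  refine ⟨C.π s, C.π e, C.π t, ?_, ?_⟩
  · rw [← map_mul]; congr 1; funext i; exact he i
  · rw [← map_lp, ← map_mul, ← map_mul]; congr 1; funext i
    have := map_lp (Pi.evalMulHom C.T i) x' l'
    exact this.trans (h i)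

open Classical in
/-- `s` at the coordinate `i`, and `t` elsewhere. -/
noncomputable def mix {ι : Type} {T : ι → Type} (i : ι) (s t : ∀ l, T l) : ∀ l, T l :=
  fun l => if l = i then s l else t l

theorem mix_self {ι : Type} {T : ι → Type} (i : ι) (s t : ∀ l, T l) : mix i s t i = s i := by
  simp [mix]

theorem mix_ne {ι : Type} {T : ι → Type} {i l : ι} (h : l ≠ i) (s t : ∀ l, T l) :
    mix i s t l = t l := by
  simp [mix, h]

theorem mix_ext {ι : Type} {T : ι → Type} (i : ι) {s t : ∀ l, T l} (h1 : s i = t i)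
    (h2 : ∀ l, l ≠ i → s l = t l) : s = t := by
  funext l
  by_cases h : l = i
  · subst h; exact h1
  · exact h2 l h

theorem mix_mul {ι : Type} {T : ι → Type} [∀ l, Mul (T l)] (i : ι) (s t s' t' : ∀ l, T l) :
    mix i s t * mix i s' t' = mix i (s * s') (t * t') :=
  mix_ext i (by simp [mix_self]) (fun l h => by simp [mix_ne h])

theorem mix_same {ι : Type} {T : ι → Type} (i : ι) (s : ∀ l, T l) : mix i s s = s :=
  mix_ext i (mix_self _ _ _) (fun _ h => mix_ne h _ _)

/-- A property that survives single-coordinate changes reaches every admissible tuple. -/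
theorem mix_ind {ι : Type} [Finite ι] {T : ι → Type} (Q : (∀ l, T l) → Prop) (g u : ∀ l, T l)
    (hu : Q u) (h : ∀ i v, Q v → Q (mix i g v)) : Q g := by
  classical
  have := Fintype.ofFinite ι
  have key : ∀ J : Finset ι, ∃ v, Q v ∧ ∀ l ∈ J, v l = g l := by
    intro J
    induction J using Finset.induction_on with
    | empty => exact ⟨u, hu, by simp⟩
    | insert i J _ ih =>
      obtain ⟨v, hv, hv'⟩ := ih
      refine ⟨mix i g v, h i v hv, fun l hl => ?_⟩
      by_cases h1 : l = i
      · subst h1; exact mix_self _ _ _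
      · rw [mix_ne h1]
        exact hv' l (by simpa [h1] using hl)
  obtain ⟨v, hv, hv'⟩ := key Finset.univ
  have : v = g := funext fun l => hv' l (Finset.mem_univ l)
  exact this ▸ hv

/-- Filters containing all but one of `B + 2` given elements have a common element. -/
theorem Cov.filters (C : Cov B N) (x : Fin (B + 2) → N) (Q : Fin (B + 2) → N → Prop)
    (hQ : ∀ j a b, Q j (a * b) ↔ Q j a ∧ Q j b) (hx : ∀ j k, k ≠ j → Q j (x k)) :
    ∃ y, ∀ j, Q j y := by
  choose t ht using fun k => C.surj (x k)
  have h1 : ∀ i, ∃ k k', k ≠ k' ∧ t k i = t k' i := by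
    intro i
    have := Fintype.ofFinite (C.T i)
    apply Fintype.exists_ne_map_eq_of_card_lt (fun k => t k i)
    rw [Fintype.card_fin, ← Nat.card_eq_fintype_card]
    have := C.card i
    omega
  choose k k' hk hkk using h1
  refine ⟨C.π fun i => t (k i) i, fun j => ?_⟩
  obtain ⟨j', hj'⟩ := exists_ne j
  refine mix_ind (fun v => Q j (C.π v)) _ (t j') (by rw [ht]; exact hx j j' hj') ?_
  intro i v hv
  obtain ⟨s, hs, hs'⟩ : ∃ s, Q j (C.π s) ∧ s i = t (k i) i := by
    by_cases h : k i = j
    · exact ⟨t (k' i), by rw [ht]; exact hx j _ (fun h' => hk i (h.trans h'.symm)), (hkk i).symm⟩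
    · exact ⟨t (k i), by rw [ht]; exact hx j _ h, rfl⟩
  have h2 : mix i (fun i => t (k i) i) v = mix i s v :=
    mix_ext i (by rw [mix_self, mix_self, hs']) (fun l h => by rw [mix_ne h, mix_ne h])
  have h3 : mix i (s * v) s * mix i s v * mix i (v * s) (s * v * s) = s * v * s * v * s := by
    rw [mix_mul, mix_mul]
    refine mix_ext i ?_ (fun l h => ?_)
    · rw [mix_self]; simp only [Pi.mul_apply, mul_assoc]
    · rw [mix_ne h]; simp only [Pi.mul_apply, mul_assoc]
  have h4 : Q j (C.π (s * v * s * v * s)) := by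
    simp only [map_mul, hQ]
    exact ⟨⟨⟨⟨hs, hv⟩, hs⟩, hv⟩, hs⟩
  rw [← h3, map_mul, map_mul, hQ, hQ] at h4
  rw [h2]
  exact h4.1.2

/-- All nonempty subsemigroups of finite powers of `M` are images of bounded products. -/
def Hyp (B : ℕ) (M : Type) [Semigroup M] : Prop :=
  ∀ (r : ℕ) (N : Type) [Semigroup N] [Nonempty N] (φ : N →ₙ* (Fin (r + 1) → M)),
    Injective φ → Nonempty (Cov B N)

theorem Hyp.idem {M : Type} [Semigroup M] (h : Hyp B M) {e f : M} (he : e * e = e)
    (hf : f * f = f) (hef : e * f = f) (hfe : f * e = f) : e = f := by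
  classical
  by_contra hne
  let S : Subsemigroup (Fin (B + 2) → M) :=
    { carrier := {g | (∀ l, g l = e ∨ g l = f) ∧ ∃ l, g l = f}
      mul_mem' := by
        rintro a b ⟨ha, l, hl⟩ ⟨hb, -⟩
        refine ⟨fun l => ?_, l, ?_⟩
        · rcases ha l with h1 | h1 <;> rcases hb l with h2 | h2 <;> simp [h1, h2, *]
        · rcases hb l with h2 | h2 <;> simp [hl, h2, *] }
  let x : Fin (B + 2) → S := fun k => ⟨fun l => if l = k then f else e, fun l => by
    by_cases h : l = k <;> simp [h], k, by simp⟩
  have : Nonempty S := ⟨x 0⟩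
  obtain ⟨C⟩ := h (B + 1) S (MulMemClass.subtype S) Subtype.val_injective
  obtain ⟨y, hy⟩ := C.filters x (fun j g => g.1 j = e) (fun j a b => by
    show a.1 j * b.1 j = e ↔ _
    have hne' : f ≠ e := fun h => hne h.symm
    rcases a.2.1 j with h1 | h1 <;> rcases b.2.1 j with h2 | h2 <;> simp [h1, h2, *])
    (fun j k hk => by simp [x, hk.symm])
  obtain ⟨l, hl⟩ := y.2.2
  exact hne ((hy l).symm.trans hl)

end Pool.Agent.H.MP_88bd66_lc
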