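import Pool.Agent.H.MP_88bd66_lc.A

/-! Local groups are commutative and the sandwich structure is trivial. -/

namespace Pool.Agent.H.MP_88bd66_lc

open Function

/-- Elementwise commutativity of a subgroup. -/
def Ab {G : Type} [Group G] (D : Subgroup G) : Prop := ∀ x ∈ D, ∀ y ∈ D, x * y = y * x

theorem ab_closure {G : Type} [Group G] (s : Set G) (h : ∀ x ∈ s, ∀ y ∈ s, x * y = y * x) :
    Ab (Subgroup.closure s) := by
  have h1 : Subgroup.closure s ≤ Subgroup.centralizer s :=
    (Subgroup.closure_le _).2 fun x hx => Subgroup.mem_centralizer_iff.2 fun y hy => h y hy x hx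
  have h2 : Subgroup.closure s ≤ Subgroup.centralizer (Subgroup.closure s : Set G) :=
    (Subgroup.closure_le _).2 fun x hx => Subgroup.mem_centralizer_iff.2 fun y hy =>
      (Subgroup.mem_centralizer_iff.1 (h1 hy) x hx).symm
  exact fun x hx y hy => Subgroup.mem_centralizer_iff.1 (h2 hy) x hx

theorem comm_of_norm {G : Type} [Group G] [Finite G]
    (h : ∀ D : Subgroup G, Ab D → ∀ a ∈ Subgroup.normalizer (D : Set G), ∀ d ∈ D, d * a = a * d)
    (x y : G) : x * y = y * x := by
  have hP : ∀ (p : ℕ) [Fact p.Prime] (P : Sylow p G), Ab (P : Subgroup G) := by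
    intro p _ P
    obtain ⟨D, -, hD⟩ := Finite.exists_le_maximal (p := fun D : Subgroup G => D ≤ P ∧ Ab D)
      (a := ⊥) ⟨bot_le, fun x hx y hy => by rw [Subgroup.mem_bot] at hx; simp [hx]⟩
    have hnil : Group.IsNilpotent (P : Subgroup G) := P.2.isNilpotent
    have hnc := Group.normalizerCondition_of_isNilpotent (G := (P : Subgroup G))
    by_cases htop : D.subgroupOf (P : Subgroup G) = ⊤
    · rw [Subgroup.subgroupOf_eq_top] at htop
      exact fun x hx y hy => hD.1.2 x (htop hx) y (htop hy)
    · obtain ⟨a, ha, ha'⟩ := SetLike.exists_of_lt (hnc _ (lt_top_iff_ne_top.2 htop))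
      have ha1 : (a : G) ∈ Subgroup.normalizer (D : Set G) := by
        rw [Subgroup.mem_normalizer_iff] at ha ⊢
        intro g
        constructor
        · intro hg
          exact (ha ⟨g, hD.1.1 hg⟩).1 hg
        · intro hg
          have hg' : g ∈ (P : Subgroup G) := by
            have := (P : Subgroup G).mul_mem ((P : Subgroup G).mul_mem
              ((P : Subgroup G).inv_mem a.2) (hD.1.1 hg)) a.2
            simpa [mul_assoc] using this
          exact (ha ⟨g, hg'⟩).2 hg
      have h1 : Ab (Subgroup.closure (insert (a : G) (D : Set G))) := by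
        apply ab_closure
        rintro u (rfl | hu) v (rfl | hv)
        · rfl
        · exact (h D hD.1.2 _ ha1 v hv).symm
        · exact h D hD.1.2 _ ha1 u hu
        · exact hD.1.2 u hu v hv
      have h2 : Subgroup.closure (insert (a : G) (D : Set G)) ≤ P := by
        rw [Subgroup.closure_le]
        rintro u (rfl | hu)
        · exact a.2
        · exact hD.1.1 hu
      have h3 : D ≤ Subgroup.closure (insert (a : G) (D : Set G)) :=
        fun u hu => Subgroup.subset_closure (Or.inr hu)
      exact absurd (hD.2 ⟨h2, h1⟩ h3 (Subgroup.subset_closure (Or.inl rfl))) ha'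
  have key : x * y * (y * x)⁻¹ = 1 := by
    rw [← orderOf_eq_one_iff]
    by_contra hne
    obtain ⟨p, hp, hpd⟩ := Nat.exists_prime_and_dvd hne
    have : Fact p.Prime := ⟨hp⟩
    obtain ⟨P⟩ : Nonempty (Sylow p G) := inferInstance
    have hN : Subgroup.normalizer ((P : Subgroup G) : Set G) ≤
        Subgroup.centralizer ((P : Subgroup G) : Set G) :=
      fun a ha => Subgroup.mem_centralizer_iff.2 fun d hd => h _ (hP p P) a ha d hd
    have h1 : x * y * (y * x)⁻¹ ∈ (MonoidHom.transferSylow P hN).ker := by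
      rw [MonoidHom.mem_ker, map_mul, map_inv, map_mul, map_mul, mul_inv_eq_one]
      exact Subtype.ext (hP p P _ (Subtype.prop _) _ (Subtype.prop _))
    exact MonoidHom.not_dvd_card_ker_transferSylow P hN
      (hpd.trans (Subgroup.orderOf_dvd_natCard _ h1))
  exact mul_inv_eq_one.1 key

variable {B : ℕ}

section Split

variable {ι : Type} {T : ι → Type} [∀ l, Semigroup (T l)] {ε : ∀ l, T l}

/-- The part of `ε u ε` at the coordinate `i`. -/
noncomputable def aa (ε : ∀ l, T l) (i : ι) (u : ∀ l, T l) : ∀ l, T l := mix i (ε * u * ε) ε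

/-- The part of `ε u ε` away from the coordinate `i`. -/
noncomputable def bb (ε : ∀ l, T l) (i : ι) (u : ∀ l, T l) : ∀ l, T l := mix i ε (ε * u * ε)

theorem aa_bb (hε : ε * ε = ε) (i : ι) (u v : ∀ l, T l) :
    aa ε i u * bb ε i v = ε * mix i u v * ε := by
  unfold aa bb
  rw [mix_mul, mul_assoc (ε * u), hε, ← mul_assoc, ← mul_assoc, hε]
  exact mix_ext i (by simp [mix_self]) (fun l h => by simp [mix_ne h])

theorem bb_aa (hε : ε * ε = ε) (i : ι) (u v : ∀ l, T l) :
    bb ε i v * aa ε i u = ε * mix i u v * ε := by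
  unfold aa bb
  rw [mix_mul, mul_assoc (ε * v), hε, ← mul_assoc, ← mul_assoc, hε]
  exact mix_ext i (by simp [mix_self]) (fun l h => by simp [mix_ne h])

theorem aa_mul (hε : ε * ε = ε) (i : ι) (u : ∀ l, T l) : aa ε i u * ε = aa ε i u := by
  unfold aa
  conv_lhs => rw [← mix_same i ε]
  rw [mix_same i ε]
  refine mix_ext i ?_ (fun l h => ?_)
  · have := congrFun hε i
    simp only [Pi.mul_apply, mix_self] at this ⊢
    rw [mul_assoc, this]
  · have := congrFun hε l
    simp only [Pi.mul_apply, mix_ne h] at this ⊢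
    exact this

theorem aa_congr (i : ι) {u v : ∀ l, T l} (h : u i = v i) : aa ε i u = aa ε i v :=
  mix_ext i (by simp [aa, mix_self, h]) (fun l h => by simp [aa, mix_ne h])

end Split

/-- A group covered by a bounded product is generated by elements with few conjugates. -/
theorem Cov.small {G : Type} [Group G] (C : Cov B G) (K : Subgroup G)
    (hK : ∀ h : G, (∀ g : Fin (B + 1) → G, ¬ Injective fun l => g l * h * (g l)⁻¹) → h ∈ K)
    (a : G) : a ∈ K := by
  obtain ⟨ε, hε, hε1⟩ := C.lift_idem (e := 1) (one_mul 1)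
  have h0 : ∀ i u v, C.π (aa ε i u) * C.π (bb ε i v) = C.π (mix i u v) := fun i u v => by
    rw [← map_mul, aa_bb hε, map_mul, map_mul, hε1, one_mul, mul_one]
  have h0' : ∀ i u v, C.π (bb ε i v) * C.π (aa ε i u) = C.π (mix i u v) := fun i u v => by
    rw [← map_mul, bb_aa hε, map_mul, map_mul, hε1, one_mul, mul_one]
  have h1 : ∀ i u, C.π (aa ε i u) ∈ K := by
    intro i u
    apply hK
    intro g hg
    choose σ hσ using fun l => C.surj (g l)
    have h2 : ∀ l, g l * C.π (aa ε i u) * (g l)⁻¹ =
        C.π (aa ε i (σ l)) * C.π (aa ε i u) * (C.π (aa ε i (σ l)))⁻¹ := by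
      intro l
      have h3 := h0 i (σ l) (σ l)
      rw [mix_same, hσ] at h3
      rw [← h3, mul_assoc (C.π (aa ε i (σ l))), h0', ← h0]
      group
    have := Fintype.ofFinite (C.T i)
    obtain ⟨l, l', hl, h3⟩ := Fintype.exists_ne_map_eq_of_card_lt (fun l => σ l i) (by
      rw [Fintype.card_fin, ← Nat.card_eq_fintype_card]
      have := C.card i
      omega)
    apply hl
    apply hg
    show g l * _ * _ = g l' * _ * _
    rw [h2, h2, aa_congr i h3]
  obtain ⟨t, rfl⟩ := C.surj a
  refine mix_ind (fun v => C.π v ∈ K) t ε (by rw [hε1]; exact K.one_mem) (fun i v hv => ?_)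
  have h3 := h0 i v v
  rw [mix_same] at h3
  have h4 : C.π (bb ε i v) ∈ K := by
    rw [← h3] at hv
    exact (K.mul_mem_cancel_left (h1 i v)).1 hv
  show C.π (mix i t v) ∈ K
  rw [← h0]
  exact K.mul_mem (h1 i t) h4

theorem Hyp.mono {M G : Type} [Semigroup M] [Semigroup G] (h : Hyp B M) (f : G →ₙ* M)
    (hf : Injective f) : Hyp B G := by
  intro r N _ _ φ hφ
  refine h r N ⟨fun x l => f (φ x l), fun x y => funext fun l => by simp⟩ (fun x y hxy => hφ ?_)
  funext l
  exact hf (congrFun hxy l)

theorem Hyp.group_comm {G : Type} [Group G] [Finite G] (h : Hyp B G) (x y : G) :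
    x * y = y * x := by
  classical
  refine comm_of_norm (fun D hD a ha => ?_) x y
  let N : Subgroup (Fin (B + 1) → G) :=
    { carrier := {g | (∀ l, g l ∈ Subgroup.normalizer (D : Set G)) ∧ ∀ l l', (g l)⁻¹ * g l' ∈ D}
      one_mem' := ⟨fun _ => Subgroup.one_mem _, fun _ _ => by simpa using D.one_mem⟩
      mul_mem' := by
        rintro g k ⟨hg, hg'⟩ ⟨hk, hk'⟩
        refine ⟨fun l => Subgroup.mul_mem _ (hg l) (hk l), fun l l' => ?_⟩
        have h1 := (Subgroup.mem_normalizer_iff.1 (Subgroup.inv_mem _ (hk l)) _).1 (hg' l l')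
        have h2 := D.mul_mem h1 (hk' l l')
        have h3 : ((g * k) l)⁻¹ * (g * k) l' =
            (k l)⁻¹ * ((g l)⁻¹ * g l') * (k l)⁻¹⁻¹ * ((k l)⁻¹ * k l') := by
          simp only [Pi.mul_apply]; group
        rw [h3]; exact h2
      inv_mem' := by
        rintro g ⟨hg, hg'⟩
        refine ⟨fun l => Subgroup.inv_mem _ (hg l), fun l l' => ?_⟩
        have h1 := (Subgroup.mem_normalizer_iff.1 (hg l) _).1 (hg' l' l)
        have h3 : (g⁻¹ l)⁻¹ * g⁻¹ l' = g l * ((g l')⁻¹ * g l) * (g l)⁻¹ := by
          simp only [Pi.inv_apply]; group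
        rw [h3]; exact h1 }
  obtain ⟨C⟩ := h B N (MulMemClass.subtype N) Subtype.val_injective
  let K : Subgroup N := (Subgroup.centralizer (D : Set G)).comap
    ((Pi.evalMonoidHom (fun _ => G) 0).comp N.subtype)
  have hK := C.small K (fun k hk => by
    by_contra hk'
    have h1 : ∀ l, ∃ d ∈ D, d * k.1 l ≠ k.1 l * d := by
      intro l
      by_contra h2
      push Not at h2
      apply hk'
      show k.1 0 ∈ Subgroup.centralizer (D : Set G)
      have h3 : k.1 0 = k.1 l * ((k.1 l)⁻¹ * k.1 0) := by group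
      rw [h3]
      refine Subgroup.mul_mem _ (Subgroup.mem_centralizer_iff.2 h2) ?_
      exact Subgroup.mem_centralizer_iff.2 fun d hd => hD d hd _ (k.2.2 l 0)
    choose d hd hd' using h1
    have h4 : ∀ l l', (Pi.mulSingle l (d l) : Fin (B + 1) → G) l' ∈ D := by
      intro l l'
      by_cases h5 : l' = l
      · subst h5; simpa using hd l'
      · rw [Pi.mulSingle_eq_of_ne h5]; exact D.one_mem
    apply hk (fun l => ⟨Pi.mulSingle l (d l), fun l' => Subgroup.le_normalizer (h4 l l'),
      fun l1 l2 => D.mul_mem (D.inv_mem (h4 l l1)) (h4 l l2)⟩)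
    intro l l' hll
    by_contra hne
    have h5 := congrFun (congrArg Subtype.val hll) l
    simp only [Subgroup.coe_mul, Subgroup.coe_inv, Pi.mul_apply, Pi.inv_apply,
      Pi.mulSingle_eq_same, Pi.mulSingle_eq_of_ne hne, one_mul, inv_one, mul_one] at h5
    exact hd' l (mul_inv_eq_iff_eq_mul.1 h5))
    ⟨fun _ => a, fun _ => ha, fun _ _ => by simpa using D.one_mem⟩
  exact fun d hd => Subgroup.mem_centralizer_iff.1 hK d hd

/-- The local monoid at an idempotent. -/
def Loc {M : Type} [Semigroup M] (e : M) : Type := {x : M // e * x = x ∧ x * e = x}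

instance {M : Type} [Semigroup M] [Finite M] (e : M) : Finite (Loc e) :=
  inferInstanceAs (Finite {x : M // e * x = x ∧ x * e = x})

instance {M : Type} [Semigroup M] (e : M) : Semigroup (Loc e) where
  mul x y := ⟨x.1 * y.1, by rw [← mul_assoc, x.2.1], by rw [mul_assoc, y.2.2]⟩
  mul_assoc x y z := Subtype.ext (mul_assoc _ _ _)

/-- The inclusion of the local monoid. -/
def Loc.val {M : Type} [Semigroup M] (e : M) : Loc e →ₙ* M := ⟨fun x => x.1, fun _ _ => rfl⟩

/-- The element `e x e`. -/
def Loc.mk' {M : Type} [Semigroup M] {e : M} (he : e * e = e) (x : M) : Loc e :=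
  ⟨e * x * e, by rw [← mul_assoc, ← mul_assoc, he], by rw [mul_assoc, he]⟩

theorem Hyp.good {M : Type} [Semigroup M] [Nonempty M] (h : Hyp B M) : Nonempty (Cov B M) :=
  h 0 M ⟨fun x _ => x, fun _ _ => rfl⟩ (fun _ _ hxy => congrFun hxy 0)

theorem Hyp.loc_pw {M : Type} [Semigroup M] (h : Hyp B M) {e : M} (he : e * e = e) (x : Loc e) :
    (pw x (ex B)).1 = e := by
  have : Nonempty M := ⟨e⟩
  obtain ⟨C⟩ := h.good
  have h1 : (pw x (ex B)).1 = pw x.1 (ex B) := map_pw (Loc.val e) x _
  refine (h.idem he ?_ (pw x (ex B)).2.1 (pw x (ex B)).2.2).symm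
  rw [h1]; exact C.om _

/-- The local monoid is a commutative group. -/
@[reducible] noncomputable def Hyp.cg {M : Type} [Semigroup M] [Finite M] (h : Hyp B M) {e : M}
    (he : e * e = e) : CommGroup (Loc e) :=
  letI m : Monoid (Loc e) :=
    { (inferInstance : Semigroup (Loc e)) with
      one := ⟨e, he, he⟩
      one_mul := fun x => Subtype.ext x.2.1
      mul_one := fun x => Subtype.ext x.2.2 }
  letI g : Group (Loc e) := groupOfIsUnit fun x => by
    have h1 : x ^ (ex B + 1) = 1 := by
      rw [← pw_eq_pow]; exact Subtype.ext (h.loc_pw he x)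
    exact IsUnit.of_pow_eq_one h1 (by omega)
  { g with mul_comm := (h.mono (Loc.val e) Subtype.val_injective).group_comm }

/-- The parallelogram argument. -/
theorem Cov.parallel {N A : Type} [Semigroup N] [CommGroup A] (C : Cov B N) {p : A}
    (ψ : N → Fin (2 * B + 1) → A) (e a : N) (he : e * e = e)
    (h1 : ∀ x y, x * e = x → ψ (x * y) = ψ x * ψ y) (h2 : ∀ x, ψ (e * x * e) = ψ x)
    (vec : Option (Fin (2 * B + 1)) → Fin (2 * B + 1) → A)
    (hvec : ∀ j l, vec j l = if j = some l then p else 1)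
    (h3 : ∀ x, ∃ j, ψ (a * x) / ψ (a * e * x) = vec j)
    (h4 : ∀ j, ∃ x, ψ (a * x) / ψ (a * e * x) = vec j) : p = 1 := by
  classical
  by_contra hp
  obtain ⟨ε, hε, rfl⟩ := C.lift_idem he
  obtain ⟨α, rfl⟩ := C.surj a
  have hinj : Injective vec := by
    intro j j' hj
    by_contra hne
    rcases j with _ | l
    · rcases j' with _ | l'
      · exact hne rfl
      · have := congrFun hj l'
        simp [hvec] at this
        exact hp this.symm
    · have := congrFun hj l
      rw [hvec, hvec, if_pos rfl, if_neg (Ne.symm hne)] at this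
      exact hp this
  have hΦ : ∀ i u v, ψ (C.π (mix i u v)) = ψ (C.π (aa ε i u)) * ψ (C.π (bb ε i v)) := by
    intro i u v
    rw [← h1 _ _ (by rw [← map_mul, aa_mul hε]), ← map_mul, aa_bb hε, map_mul, map_mul, h2]
  have hΦ' : ∀ i u v, ψ (C.π u) * ψ (C.π v) = ψ (C.π (mix i u v)) * ψ (C.π (mix i v u)) := by
    intro i u v
    conv_lhs => rw [← mix_same i u, ← mix_same i v]
    simp only [hΦ]
    rw [mul_mul_mul_comm, mul_comm (ψ (C.π (bb ε i u))), mul_mul_mul_comm]
  let δ : (∀ i, C.T i) → Fin (2 * B + 1) → A := fun t => ψ (C.π (α * t)) / ψ (C.π (α * ε * t))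
  have hδ : ∀ i u v, δ u * δ v = δ (mix i u v) * δ (mix i v u) := by
    intro i u v
    have h5 : ∀ β : ∀ l, C.T l, ∀ u v, β * mix i u v = mix i (β * u) (β * v) := fun β u v => by
      rw [← mix_mul, mix_same]
    simp only [δ, div_mul_div_comm, h5]
    rw [hΦ' i (α * u), hΦ' i (α * ε * u)]
  have h3' : ∀ t, ∃ j, δ t = vec j := fun t => by
    simpa only [δ, map_mul] using h3 (C.π t)
  have h4' : ∀ j, ∃ t, δ t = vec j := fun j => by
    obtain ⟨x, hx⟩ := h4 j
    obtain ⟨t, rfl⟩ := C.surj x
    exact ⟨t, by simpa only [δ, map_mul] using hx⟩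
  choose t ht using h4'
  obtain ⟨i, x, c, hc⟩ : ∃ i x c, δ (mix i x c) ≠ δ c := by
    by_contra h5
    push Not at h5
    have h6 := mix_ind (fun v => δ v = vec none) (t (some 0)) (t none) (ht none)
      (fun i v hv => (h5 i _ v).trans hv)
    rw [ht] at h6
    exact absurd (hinj h6) (by simp)
  obtain ⟨j1, hj1⟩ := h3' c
  obtain ⟨j2, hj2⟩ := h3' (mix i x c)
  have hne : j1 ≠ j2 := fun h => hc (by rw [hj1, hj2, h])
  have h7 : ∀ u, δ (mix i c u) = vec j1 ∨ δ (mix i c u) = vec j2 := by
    intro u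
    obtain ⟨ja, hja⟩ := h3' (mix i x u)
    obtain ⟨jb, hjb⟩ := h3' (mix i c u)
    have h8 := hδ i (mix i x u) c
    have h9 : mix i (mix i x u) c = mix i x c :=
      mix_ext i (by simp [mix_self]) (fun l h => by simp [mix_ne h])
    have h10 : mix i c (mix i x u) = mix i c u :=
      mix_ext i (by simp [mix_self]) (fun l h => by simp [mix_ne h])
    rw [h9, h10, hja, hj1, hj2, hjb] at h8
    rw [hjb]
    by_contra h11
    push Not at h11
    have hb1 : j1 ≠ jb := fun h => h11.1 (by rw [h])
    have hb2 : j2 ≠ jb := fun h => h11.2 (by rw [h])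
    rcases jb with _ | l
    · obtain ⟨l1, rfl⟩ := Option.ne_none_iff_exists'.1 hb1
      obtain ⟨l2, rfl⟩ := Option.ne_none_iff_exists'.1 hb2
      have h12 := congrFun h8 l1
      have h13 := congrFun h8 l2
      simp only [Pi.mul_apply, hvec, if_neg hne, if_neg hne.symm, if_true, reduceCtorEq,
        if_false, mul_one] at h12 h13
      by_cases h14 : ja = some l2
      · rw [h14, if_neg hne.symm, one_mul] at h12
        exact hp h12
      · rw [if_neg h14] at h13
        exact hp h13.symm
    · have h12 := congrFun h8 l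
      simp only [Pi.mul_apply, hvec, if_neg hb1, if_neg hb2, if_true, mul_one, one_mul] at h12
      by_cases h14 : ja = some l
      · rw [h14, mul_comm (vec (some l))] at h8
        exact hne (hinj (mul_right_cancel h8))
      · rw [if_neg h14] at h12
        exact hp h12.symm
  have := Fintype.ofFinite (C.T i)
  obtain ⟨j, j', hjj, h8⟩ := Fintype.exists_ne_map_eq_of_card_lt
    (fun j => ((t j i, decide (δ (mix i c (t j)) = vec j1)) : C.T i × Bool)) (by
      rw [Fintype.card_prod, Fintype.card_option, Fintype.card_fin, Fintype.card_bool,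
        ← Nat.card_eq_fintype_card]
      have := C.card i
      omega)
  rw [Prod.mk.injEq, decide_eq_decide] at h8
  have h9 : δ (mix i c (t j)) = δ (mix i c (t j')) := by
    by_cases h10 : δ (mix i c (t j)) = vec j1
    · rw [h10, h8.2.1 h10]
    · rw [(h7 _).resolve_left h10, (h7 _).resolve_left (fun h => h10 (h8.2.2 h))]
  have h10 : mix i (t j) c = mix i (t j') c :=
    mix_ext i (by rw [mix_self, mix_self, h8.1]) (fun l h => by simp [mix_ne h])
  have h11 := hδ i (t j) c
  have h12 := hδ i (t j') c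
  rw [h9, h10, ← h12, ht, ht] at h11
  exact hjj (hinj (mul_right_cancel h11))

theorem Hyp.orth {M : Type} [Semigroup M] [Finite M] (h : Hyp B M) {e : M} (he : e * e = e)
    (a b : M) : Loc.mk' he (a * b) = Loc.mk' he a * Loc.mk' he b := by
  classical
  letI := h.cg he
  have hm : ∀ x y, x * e = x → Loc.mk' he (x * y) = Loc.mk' he x * Loc.mk' he y := by
    intro x y hx
    apply Subtype.ext
    show e * (x * y) * e = e * x * e * (e * y * e)
    rw [mul_assoc e x e, hx, ← mul_assoc, ← mul_assoc, ← mul_assoc, mul_assoc e x e, hx]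
  have hm2 : ∀ x, Loc.mk' he (e * x * e) = Loc.mk' he x := by
    intro x
    apply Subtype.ext
    show e * (e * x * e) * e = e * x * e
    rw [← mul_assoc, ← mul_assoc, he, mul_assoc (e * x), he]
  let N : Subsemigroup (Fin (2 * B + 1) → M) :=
    { carrier := {g | ∃ j : Option (Fin (2 * B + 1)), ∀ l,
        (j = some l → ∃ m, g l = b * e * m) ∧ (j ≠ some l → e * g l = g l)}
      mul_mem' := by
        rintro g k ⟨j, hj⟩ -
        refine ⟨j, fun l => ⟨fun h1 => ?_, fun h1 => ?_⟩⟩
        · obtain ⟨m, hm⟩ := (hj l).1 h1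
          exact ⟨m * k l, by rw [Pi.mul_apply, hm, mul_assoc]⟩
        · rw [Pi.mul_apply, ← mul_assoc, (hj l).2 h1] }
  let ee : N := ⟨fun _ => e, none, fun l => ⟨by simp, fun _ => he⟩⟩
  let ea : N := ⟨fun _ => e * a, none, fun l => ⟨by simp, fun _ => by rw [← mul_assoc, he]⟩⟩
  have : Nonempty N := ⟨ee⟩
  obtain ⟨C⟩ := h (2 * B) N (MulMemClass.subtype N) Subtype.val_injective
  have key : ∀ (x : N) (j : Option (Fin (2 * B + 1))), (∀ l,
      (j = some l → ∃ m, x.1 l = b * e * m) ∧ (j ≠ some l → e * x.1 l = x.1 l)) →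
      ((fun l => Loc.mk' he ((ea * x).1 l)) / fun l => Loc.mk' he ((ea * ee * x).1 l)) =
      fun l => if j = some l then
        Loc.mk' he (e * a * (b * e)) / Loc.mk' he (e * a * e * (b * e)) else 1 := by
    intro x j hj
    funext l
    show Loc.mk' he (e * a * x.1 l) / Loc.mk' he (e * a * e * x.1 l) = _
    by_cases h1 : j = some l
    · obtain ⟨m, hm'⟩ := (hj l).1 h1
      rw [if_pos h1, hm', ← mul_assoc (e * a), ← mul_assoc (e * a * e),
        hm (e * a * (b * e)) m (by simp only [mul_assoc, he]),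
        hm (e * a * e * (b * e)) m (by simp only [mul_assoc, he]), mul_div_mul_right_eq_div]
    · rw [if_neg h1, mul_assoc (e * a) e, (hj l).2 h1, div_self']
  have hp := C.parallel (p := Loc.mk' he (e * a * (b * e)) / Loc.mk' he (e * a * e * (b * e)))
    (fun x l => Loc.mk' he (x.1 l)) ee ea (Subtype.ext (funext fun _ => he))
    (fun x y hx => funext fun l => hm _ _ (congrFun (congrArg Subtype.val hx) l))
    (fun x => funext fun l => hm2 _) _ (fun _ _ => rfl)
    (fun x => by
      obtain ⟨j, hj⟩ := x.2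
      exact ⟨j, key x j hj⟩)
    (fun j => by
      have hj : ∀ l, (j = some l → ∃ m, (if j = some l then b * e * e else e) = b * e * m) ∧
          (j ≠ some l → e * (if j = some l then b * e * e else e) =
            if j = some l then b * e * e else e) :=
        fun l => ⟨fun h1 => ⟨e, if_pos h1⟩, fun h1 => by rw [if_neg h1, he]⟩
      exact ⟨⟨fun l => if j = some l then b * e * e else e, j, hj⟩, key _ j hj⟩)
  have h5 := congrArg Subtype.val ((div_eq_one (G := Loc e)).1 hp)
  apply Subtype.ext
  have h6 : e * (e * a * (b * e)) * e = e * (e * a * e * (b * e)) * e := h5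
  have h7 : ∀ x, e * (e * x) = e * x := fun x => by rw [← mul_assoc, he]
  show e * (a * b) * e = e * a * e * (e * b * e)
  simp only [mul_assoc, he, h7] at h6 ⊢
  exact h6

/-- The structure theorem: between two long products the middle is commutative of exponent
dividing `B !`. -/
theorem Hyp.mid {M : Type} [Semigroup M] [Finite M] (h : Hyp B M) (x x' : M) (l l' : List M)
    (hl : B ≤ l.length) (hl' : B ≤ l'.length) :
    (∀ y z, lp x l * (y * z) * lp x' l' = lp x l * (z * y) * lp x' l') ∧
      ∀ y, lp x l * pw y (ex B) * lp x' l' = lp x l * lp x' l' := by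
  have : Nonempty M := ⟨x⟩
  obtain ⟨C⟩ := h.good
  obtain ⟨s, e, t, he, h1⟩ := C.split x l hl
  obtain ⟨s', e', t', he', h2⟩ := C.split x' l' hl'
  obtain ⟨u, hu⟩ : ∃ u, e' = e' * e * u := by
    letI := h.cg he'
    refine ⟨e' * ((Loc.mk' he' e)⁻¹).1, ?_⟩
    rw [← mul_assoc]
    exact (congrArg Subtype.val (mul_inv_cancel (Loc.mk' he' e))).symm
  have h3 : ∀ m, s * e * t * m * (s' * e' * t') = s * (Loc.mk' he (t * m * (s' * e'))).1 * (u * t') := by
    intro m
    conv_lhs => rw [hu]
    show _ = s * (e * (t * m * (s' * e')) * e) * (u * t')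
    simp only [mul_assoc]
  letI := h.cg he
  rw [h1, h2]
  refine ⟨fun y z => ?_, fun y => ?_⟩
  · rw [h3, h3]
    simp only [h.orth he]
    rw [mul_comm (Loc.mk' he y)]
  · let γ : M →ₙ* Loc e := ⟨Loc.mk' he, h.orth he⟩
    have h4 : Loc.mk' he (pw y (ex B)) = 1 :=
      (map_pw γ y _).trans (Subtype.ext (h.loc_pw he _))
    have h5 : s * e * t * (s' * e' * t') = s * (Loc.mk' he (t * (s' * e'))).1 * (u * t') := by
      conv_lhs => rw [hu]
      show _ = s * (e * (t * (s' * e')) * e) * (u * t')
      simp only [mul_assoc]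
    rw [h3, h5]
    simp only [h.orth he, h4, mul_one]

end Pool.Agent.H.MP_88bd66_lc
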