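import Pool.Agent.H.MP_88bd66_lc.B

/-! Identities: a bounded basis. -/

namespace Pool.Agent.H.MP_88bd66_lc

open Function

/-- Value of a word under an assignment, in `S` with an identity adjoined. -/
def ev {X S : Type} [Semigroup S] (α : X → S) (w : List X) : WithOne S :=
  (w.map fun x => (α x : WithOne S)).prod

section
variable {X Y S : Type} [Semigroup S]

@[simp] theorem ev_nil (α : X → S) : ev α [] = 1 := rfl

@[simp] theorem ev_cons (α : X → S) (x : X) (w : List X) : ev α (x :: w) = α x * ev α w := by
  simp [ev]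

@[simp] theorem ev_append (α : X → S) (u v : List X) : ev α (u ++ v) = ev α u * ev α v := by
  simp [ev]

theorem ev_map (α : Y → S) (f : X → Y) (w : List X) : ev α (w.map f) = ev (α ∘ f) w := by
  simp [ev, List.map_map, Function.comp_def]

theorem ev_congr {α β : X → S} {w : List X} (h : ∀ x ∈ w, α x = β x) : ev α w = ev β w := by
  unfold ev
  congr 1
  exact List.map_congr_left fun x hx => by rw [h x hx]

theorem ev_rep (α : X → S) (n : ℕ) (w : List X) :
    ev α (List.replicate n w).flatten = ev α w ^ n := by
  induction n with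
  | zero => simp
  | succ n ih => rw [List.replicate_succ, List.flatten_cons, ev_append, ih, pow_succ']

theorem ev_eq_lp (α : X → S) (x : X) (w : List X) :
    ev α (x :: w) = (lp (α x) (w.map α) : S) := by
  rw [coe_lp]; simp [ev, List.map_map, Function.comp_def]

/-- `S` satisfies the identity `u = v`. -/
def Sat (S : Type) [Semigroup S] {X : Type} (u v : List X) : Prop := ∀ α : X → S, ev α u = ev α v

/-- Products of `k + 1` elements. -/
def II (k : ℕ) (a : WithOne S) : Prop := ∃ f : Fin (k + 1) → S, a = ev f (List.finRange (k + 1))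

theorem II_ev {k : ℕ} (α : X → S) (w : List X) (h : w.length = k + 1) : II k (ev α w) := by
  refine ⟨fun i => α (w.get (i.cast h.symm)), ?_⟩
  unfold ev
  congr 1
  apply List.ext_getElem
  · simp [h]
  · intro n h1 h2
    simp

theorem II_of {k : ℕ} (l : List S) (h : k + 1 ≤ l.length) : II k (ev id l) := by
  induction l with
  | nil => simp at h
  | cons a l ih =>
    rcases Nat.eq_or_lt_of_le h with h1 | h1
    · exact II_ev id _ h1.symm
    · obtain ⟨f, hf⟩ := ih (by simpa using h1)
      refine ⟨Function.update f 0 (a * f 0), ?_⟩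
      rw [ev_cons, hf, List.finRange_succ, ev_cons, ev_cons, ev_map, ev_map, update_self,
        WithOne.coe_mul, mul_assoc]
      congr 2

theorem exists_ev (x : WithOne S) : ∃ l : List S, x = ev id l := by
  induction x using WithOne.recOneCoe with
  | one => exact ⟨[], rfl⟩
  | coe a => exact ⟨[a], by simp⟩

theorem II.mul_right {k : ℕ} {a : WithOne S} (h : II k a) (x : WithOne S) : II k (a * x) := by
  obtain ⟨f, rfl⟩ := h
  obtain ⟨l, rfl⟩ := exists_ev x
  have : ev f (List.finRange (k + 1)) = ev id ((List.finRange (k + 1)).map f) := by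
    rw [ev_map]; rfl
  rw [this, ← ev_append]
  exact II_of _ (by simp)

theorem II.mul_left {k : ℕ} {a : WithOne S} (h : II k a) (x : WithOne S) : II k (x * a) := by
  obtain ⟨f, rfl⟩ := h
  obtain ⟨l, rfl⟩ := exists_ev x
  have : ev f (List.finRange (k + 1)) = ev id ((List.finRange (k + 1)).map f) := by
    rw [ev_map]; rfl
  rw [this, ← ev_append]
  exact II_of _ (by simp)

/-- Equality between long products. -/
def mc (k : ℕ) (S : Type) [Semigroup S] : Con (WithOne S) where
  r x y := ∀ a b, II k a → II k b → a * x * b = a * y * b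
  iseqv := ⟨fun _ _ _ _ _ => rfl, fun h a b ha hb => (h a b ha hb).symm,
    fun h h' a b ha hb => (h a b ha hb).trans (h' a b ha hb)⟩
  mul' := by
    intro w x y z h h' a b ha hb
    calc a * (w * y) * b = a * w * (y * b) := by simp only [mul_assoc]
      _ = a * x * (y * b) := h a _ ha (hb.mul_left y)
      _ = a * x * y * b := by simp only [mul_assoc]
      _ = a * x * z * b := h' _ b (ha.mul_right x) hb
      _ = a * (x * z) * b := by simp only [mul_assoc]

/-- The word `w` between two blocks of fresh variables. -/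
def wrap (k : ℕ) (w : List Y) : List ((Fin (k + 1) ⊕ Fin (k + 1)) ⊕ Y) :=
  (List.finRange (k + 1)).map (fun i => Sum.inl (Sum.inl i)) ++ w.map Sum.inr ++
    (List.finRange (k + 1)).map (fun i => Sum.inl (Sum.inr i))

theorem wrap_ne (k : ℕ) (w : List Y) : wrap k w ≠ [] := by simp [wrap]

theorem wrap_length (k : ℕ) (w : List Y) : (wrap k w).length = w.length + 2 * (k + 1) := by
  simp [wrap]; omega

theorem sat_wrap (k : ℕ) (w w' : List Y) :
    Sat S (wrap k w) (wrap k w') ↔ ∀ β : Y → S, mc k S (ev β w) (ev β w') := by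
  constructor
  · rintro h β a b ⟨f, rfl⟩ ⟨g, rfl⟩
    have := h (Sum.elim (Sum.elim f g) β)
    simp only [wrap, ev_append, ev_map] at this
    exact this
  · intro h α
    simp only [wrap, ev_append, ev_map]
    exact h _ _ _ ⟨_, rfl⟩ ⟨_, rfl⟩

end

/-- The middle of long products is commutative of exponent dividing `E + 1`. -/
structure W (k E : ℕ) (S : Type) [Semigroup S] : Prop where
  comm : ∀ y z : S, mc k S (y * z) (z * y)
  exp : ∀ y : S, mc k S (y ^ (E + 1)) 1

theorem Hyp.toW {B : ℕ} {M : Type} [Semigroup M] [Finite M] (h : Hyp B M) : W B (ex B) M := by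
  have key : ∀ a : WithOne M, II B a → ∃ x l, B ≤ List.length l ∧ a = (lp x l : M) := by
    rintro a ⟨f, rfl⟩
    rw [List.finRange_succ, ev_eq_lp]
    exact ⟨_, _, by simp, rfl⟩
  constructor
  · intro y z a b ha hb
    obtain ⟨x, l, hl, rfl⟩ := key a ha
    obtain ⟨x', l', hl', rfl⟩ := key b hb
    exact_mod_cast (h.mid x x' l l' hl hl').1 y z
  · intro y a b ha hb
    obtain ⟨x, l, hl, rfl⟩ := key a ha
    obtain ⟨x', l', hl', rfl⟩ := key b hb
    rw [← coe_pw, mul_one]
    exact_mod_cast (h.mid x x' l l' hl hl').2 y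

section
variable {k E : ℕ} {S X : Type} [Semigroup S]

/-- The quotient by `mc` is commutative. -/
@[reducible] def W.cm (h : W k E S) : CommMonoid (mc k S).Quotient :=
  { (inferInstance : Monoid (mc k S).Quotient) with
    mul_comm := by
      intro a b
      obtain ⟨x, rfl⟩ := (mc k S).mk'_surjective a
      obtain ⟨y, rfl⟩ := (mc k S).mk'_surjective b
      rw [← map_mul, ← map_mul]
      induction x using WithOne.recOneCoe with
      | one => simp
      | coe x =>
        induction y using WithOne.recOneCoe with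
        | one => simp
        | coe y => exact (Con.eq _).2 (h.comm x y) }

theorem W.pow (h : W k E S) (a : (mc k S).Quotient) : a ^ (E + 1) = 1 := by
  obtain ⟨x, rfl⟩ := (mc k S).mk'_surjective a
  rw [← map_pow]
  induction x using WithOne.recOneCoe with
  | one => simp
  | coe x => exact (Con.eq _).2 (h.exp x)

theorem mid_eq {p s x y : WithOne S} (hp : II k p) (hs : II k s)
    (h : (mc k S).mk' x = (mc k S).mk' y) : p * x * s = p * y * s :=
  (Con.eq _).1 h p s hp hs

theorem W.pow_succ (h : W k E S) {p s : WithOne S} (hp : II k p) (hs : II k s) (m : WithOne S) :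
    (p * m * s) ^ (E + 1) * (p * m * s) = p * m * s := by
  letI := h.cm
  have h1 : (p * m * s) ^ (E + 1) * (p * m * s) = p * (m * s * (p * m * s) ^ E * p * m) * s := by
    rw [pow_succ']; simp only [mul_assoc]
  rw [h1]
  apply mid_eq hp hs
  simp only [map_mul, map_pow]
  generalize (mc k S).mk' p = P
  generalize (mc k S).mk' m = M
  generalize (mc k S).mk' s = Q
  calc M * Q * (P * M * Q) ^ E * P * M = (P * M * Q) ^ (E + 1) * M := by
        rw [_root_.pow_succ]; ac_rfl
    _ = M := by rw [h.pow, one_mul]

theorem cm_aux {A : Type} [CommMonoid A] (h : ∀ a : A, a ^ (E + 1) = 1) (P M Q : A) :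
    (P * Q) ^ E = M * Q * (P * M * Q) ^ (E + E) * P * M := by
  calc (P * Q) ^ E = (P * Q) ^ E * (P * M * Q) ^ (E + 1) * M ^ (E + 1) := by
        rw [h, h, mul_one, mul_one]
    _ = M * Q * (P * M * Q) ^ (E + E) * P * M := by
        simp only [_root_.pow_succ, pow_add, mul_pow]; ac_rfl

theorem W.idem (h : W k E S) {p s : WithOne S} (hp : II k p) (hs : II k s) (m : WithOne S) :
    p * (p * s) ^ E * s = (p * m * s) * (p * m * s) ^ (E + E) * (p * m * s) := by
  letI := h.cm
  have h1 : (p * m * s) * (p * m * s) ^ (E + E) * (p * m * s) =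
      p * (m * s * (p * m * s) ^ (E + E) * p * m) * s := by
    simp only [mul_assoc]
  rw [h1]
  apply mid_eq hp hs
  simp only [map_mul, map_pow]
  generalize (mc k S).mk' p = P
  generalize (mc k S).mk' m = M
  generalize (mc k S).mk' s = Q
  exact cm_aux h.pow P M Q

theorem W.sand (h : W k E S) {p s : WithOne S} (hp : II k p) (hs : II k s) (m : WithOne S) :
    p * m * s = (p * (p * s) ^ E * s) * (p * m * s) * (p * (p * s) ^ E * s) := by
  letI := h.cm
  have h1 : (p * (p * s) ^ E * s) * (p * m * s) * (p * (p * s) ^ E * s) =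
      p * ((p * s) ^ E * s * (p * m * s) * p * (p * s) ^ E) * s := by
    simp only [mul_assoc]
  rw [h1]
  apply mid_eq hp hs
  simp only [map_mul, map_pow]
  generalize (mc k S).mk' p = P
  generalize (mc k S).mk' m = M
  generalize (mc k S).mk' s = Q
  calc M = (P * Q) ^ (E + 1) * (P * Q) ^ (E + 1) * M := by
        rw [h.pow, one_mul, one_mul]
    _ = (P * Q) ^ E * Q * (P * M * Q) * P * (P * Q) ^ E := by
        simp only [_root_.pow_succ]; ac_rfl

theorem W.ev_count [DecidableEq X] (h : W k E S) (α : X → S) (w : List X) (F : Finset X)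
    (hF : ∀ x ∈ w, x ∈ F) :
    letI := h.cm
    (mc k S).mk' (ev α w) = ∏ x ∈ F, (mc k S).mk' (α x) ^ (w.count x % (E + 1)) := by
  letI := h.cm
  have h1 : ∀ (a : (mc k S).Quotient) n, a ^ (n % (E + 1)) = a ^ n := fun a n =>
    (pow_eq_pow_mod n (h.pow a)).symm
  simp only [h1]
  induction w with
  | nil => simp
  | cons a w ih =>
    rw [ev_cons, map_mul, ih (fun x hx => hF x (List.mem_cons_of_mem _ hx))]
    simp only [List.count_cons, pow_add, Finset.prod_mul_distrib, beq_iff_eq, pow_ite, pow_one,
      pow_zero]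
    rw [Finset.prod_ite_eq, if_pos (hF a List.mem_cons_self), mul_comm]

end

/-- `M'` satisfies the identities of `M` of length at most `n`. -/
def Short (n : ℕ) (M M' : Type) [Semigroup M] [Semigroup M'] : Prop :=
  ∀ (X : Type) (u v : List X), u ≠ [] → v ≠ [] → u.length ≤ n → v.length ≤ n →
    Sat M u v → Sat M' u v

/-- `M'` satisfies all identities of `M`. -/
def IdLe (M M' : Type) [Semigroup M] [Semigroup M'] : Prop :=
  ∀ (X : Type) (u v : List X), u ≠ [] → v ≠ [] → Sat M u v → Sat M' u v

/-- The length bound. -/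
def bd (k E : ℕ) : ℕ := 2 * (k + 1) * (2 * (k + 1) * (E + 1) + 1) + 2 * (k + 1) + (E + 2)

section
variable {k E : ℕ} {M M' : Type} [Semigroup M] [Semigroup M']

theorem Short.mid (hs : Short (bd k E) M M') {Y : Type} (w w' : List Y) (hw : w.length ≤ E + 2)
    (hw' : w'.length ≤ E + 2) (h : ∀ β : Y → M, mc k M (ev β w) (ev β w')) (β : Y → M') :
    mc k M' (ev β w) (ev β w') :=
  (sat_wrap k w w').1 (hs _ _ _ (wrap_ne _ _) (wrap_ne _ _)
    (by rw [wrap_length]; unfold bd; omega) (by rw [wrap_length]; unfold bd; omega)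
    ((sat_wrap k w w').2 h)) β

theorem ev_replicate {S : Type} [Semigroup S] (β : Unit → S) (n : ℕ) :
    ev β (List.replicate n ()) = (β () : WithOne S) ^ n := by
  simp [ev]

theorem Short.pow (hs : Short (bd k E) M M') {i j : ℕ} (hi : i ≤ E + 2) (hj : j ≤ E + 2)
    (h : ∀ y : M, mc k M (y ^ i) (y ^ j)) (y : M') : mc k M' (y ^ i) (y ^ j) := by
  have := hs.mid (List.replicate i ()) (List.replicate j ()) (by simpa) (by simpa)
    (fun β => by rw [ev_replicate, ev_replicate]; exact h _) (fun _ => y)
  rwa [ev_replicate, ev_replicate] at this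

theorem Short.toW (hs : Short (bd k E) M M') (h : W k E M) : W k E M' := by
  constructor
  · intro y z
    have := hs.mid [true, false] [false, true] (by simp) (by simp)
      (fun β => by simpa using h.comm _ _) (fun b => if b then y else z)
    simpa using this
  · intro y
    have := hs.pow (i := E + 1) (j := 0) (by omega) (by omega) (fun y => by simpa using h.exp y) y
    simpa using this

theorem long_split {X : Type} (u : List X) (hu : 2 * (k + 1) ≤ u.length) :
    ∃ p m s, p.length = k + 1 ∧ s.length = k + 1 ∧ u = p ++ m ++ s := by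
  refine ⟨u.take (k + 1), (u.drop (k + 1)).take (u.length - 2 * (k + 1)),
    (u.drop (k + 1)).drop (u.length - 2 * (k + 1)), by simp; omega, by simp; omega, ?_⟩
  rw [List.append_assoc, List.take_append_drop, List.take_append_drop]

theorem Short.long [Finite M] (hs : Short (bd k E) M M') (h : W k E M) {X : Type} (u v : List X)
    (hu : 2 * (k + 1) ≤ u.length) (hv : 2 * (k + 1) ≤ v.length) (huv : Sat M u v) :
    Sat M' u v := by
  classical
  have h' := hs.toW h
  have hc : ∀ x, ∀ y : M, mc k M (y ^ (u.count x % (E + 1))) (y ^ (v.count x % (E + 1))) := by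
    intro x y
    letI := h.cm
    have he : pw y (ex (Nat.card M)) * pw y (ex (Nat.card M)) = pw y (ex (Nat.card M)) :=
      om_idem le_rfl y
    generalize pw y (ex (Nat.card M)) = e at he
    have he1 : (mc k M).mk' e = 1 := by
      rw [← h.pow ((mc k M).mk' e), ← map_pow, ← coe_pw, pw_idem he]
    have h1 : ∀ w : List X, (mc k M).mk' (ev (fun z => if z = x then y else e) w) =
        (mc k M).mk' (y ^ (w.count x % (E + 1))) := by
      intro w
      rw [h.ev_count _ w (insert x w.toFinset) (fun z hz => by simp [hz]),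
        Finset.prod_eq_single x (fun z _ hz => by rw [if_neg hz, he1, one_pow]) (by simp),
        if_pos rfl, map_pow]
    apply (Con.eq _).1
    show (mc k M).mk' _ = (mc k M).mk' _
    rw [← h1, ← h1, huv]
  have hc' : ∀ x, ∀ y : M', mc k M' (y ^ (u.count x % (E + 1))) (y ^ (v.count x % (E + 1))) :=
    fun x => hs.pow (by have := Nat.mod_lt (u.count x) (show E + 1 > 0 by omega); omega)
      (by have := Nat.mod_lt (v.count x) (show E + 1 > 0 by omega); omega) (hc x)
  have hg : ∀ α : X → M', (mc k M').mk' (ev α u) = (mc k M').mk' (ev α v) := by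
    intro α
    letI := h'.cm
    rw [h'.ev_count α u (u ++ v).toFinset (fun z hz => by simp [hz]),
      h'.ev_count α v (u ++ v).toFinset (fun z hz => by simp [hz])]
    refine Finset.prod_congr rfl fun x _ => ?_
    rw [← map_pow, ← map_pow]
    exact (Con.eq _).2 (hc' x _)
  obtain ⟨p, m, s, hp, hs', rfl⟩ := long_split u hu
  obtain ⟨p', m', s', hp', hs'', rfl⟩ := long_split v hv
  have hlen : ∀ p s : List X, p.length = k + 1 → s.length = k + 1 →
      (p ++ (List.replicate E (p ++ s)).flatten ++ s).length ≤ bd k E := by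
    intro p s hp hs
    simp only [List.length_append, List.length_flatten, List.map_replicate, List.sum_replicate,
      hp, hs, smul_eq_mul, bd]
    nlinarith [Nat.zero_le (k * E), Nat.zero_le (k * k * E), Nat.zero_le (k * k)]
  have hU : Sat M' (p ++ (List.replicate E (p ++ s)).flatten ++ s)
      (p' ++ (List.replicate E (p' ++ s')).flatten ++ s') := by
    refine hs _ _ _ ?_ ?_ (hlen _ _ hp hs') (hlen _ _ hp' hs'') (fun α => ?_)
    · intro h0; have := congrArg List.length h0; simp [hp] at this
    · intro h0; have := congrArg List.length h0; simp [hp'] at this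
    · have := huv α
      simp only [ev_append, ev_rep] at this ⊢
      rw [h.idem (II_ev α p hp) (II_ev α s hs') (ev α m),
        h.idem (II_ev α p' hp') (II_ev α s' hs'') (ev α m'), this]
  intro α
  have h1 := hU α
  have h2 := hg α
  simp only [ev_append, ev_rep] at h1 h2 ⊢
  rw [h'.sand (II_ev α p hp) (II_ev α s hs'), h'.sand (II_ev α p' hp') (II_ev α s' hs''), h1]
  exact mid_eq (((II_ev α p' hp').mul_right _).mul_right _) ((II_ev α s' hs'').mul_left _) h2

theorem Short.half [Finite M] (hs : Short (bd k E) M M') (h : W k E M) {X : Type} (u v : List X)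
    (hu : 2 * (k + 1) ≤ u.length) (hv : v ≠ []) (huv : Sat M u v) : Sat M' u v := by
  by_cases hv' : 2 * (k + 1) ≤ v.length
  · exact hs.long h u v hu hv' huv
  have hv0 : 0 < v.length := List.length_pos_iff.2 hv
  have hl : (List.replicate (2 * (k + 1) * (E + 1) + 1) v).flatten.length =
      (2 * (k + 1) * (E + 1) + 1) * v.length := by simp
  have h1 : Sat M v (List.replicate (2 * (k + 1) * (E + 1) + 1) v).flatten := by
    intro α
    rw [ev_rep, ← huv α]
    obtain ⟨p, m, s, hp, hs', rfl⟩ := long_split u hu
    simp only [ev_append]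
    have h2 := h.pow_succ (II_ev α p hp) (II_ev α s hs') (ev α m)
    generalize ev α p * ev α m * ev α s = z at h2
    generalize 2 * (k + 1) = c
    induction c with
    | zero => simp
    | succ c ih => rw [add_mul, one_mul, add_assoc, pow_add, pow_succ z (E + 1), h2, ← pow_succ,
        ← ih]
  have h2 := hs _ _ _ hv (by
      intro h0
      rw [h0] at hl
      exact absurd hl.symm (Nat.mul_ne_zero (by omega) (by omega)))
    (by unfold bd; omega) (by
      rw [hl]; unfold bd
      have := Nat.mul_le_mul_left (2 * (k + 1) * (E + 1) + 1) (le_of_not_ge hv')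
      rw [mul_comm _ (2 * (k + 1))] at this
      omega) h1
  have h3 := hs.long h u _ hu (by
    rw [hl]
    have h4 := Nat.mul_le_mul_left (2 * (k + 1) * (E + 1) + 1) hv0
    have h5 : 2 * (k + 1) * 1 ≤ 2 * (k + 1) * (E + 1) := Nat.mul_le_mul_left _ (by omega)
    omega) (fun α => (huv α).trans (h1 α))
  exact fun α => (h3 α).trans (h2 α).symm

theorem Short.idLe [Finite M] (hs : Short (bd k E) M M') (h : W k E M) : IdLe M M' := by
  intro X u v hu hv huv
  by_cases h1 : 2 * (k + 1) ≤ u.length
  · exact hs.half h u v h1 hv huv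
  by_cases h2 : 2 * (k + 1) ≤ v.length
  · exact fun α => (hs.half h v u h2 hu (fun β => (huv β).symm) α).symm
  exact hs _ u v hu hv (by unfold bd; omega) (by unfold bd; omega) huv

end

end Pool.Agent.H.MP_88bd66_lc
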