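import Pool.Agent.H.MP_88bd66_lc.C

/-! Birkhoff's theorem for finite semigroups, and computability of identity checking. -/

namespace Pool.Agent.H.MP_88bd66_lc

open Function

section
variable {M N : Type} [Semigroup M] [Semigroup N]

theorem sat_cons {X : Type} (x y : X) (u v : List X) : Sat M (x :: u) (y :: v) ↔
    ∀ α : X → M, lp (α x) (u.map α) = lp (α y) (v.map α) := by
  refine forall_congr' fun α => ?_
  rw [ev_eq_lp, ev_eq_lp, WithOne.coe_inj]

theorem idLe_iff : IdLe M N ↔ ∀ (X : Type) (x y : X) (u v : List X),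
    (∀ α : X → M, lp (α x) (u.map α) = lp (α y) (v.map α)) →
      ∀ α : X → N, lp (α x) (u.map α) = lp (α y) (v.map α) := by
  constructor
  · intro h X x y u v huv
    exact (sat_cons x y u v).1 (h X _ _ (by simp) (by simp) ((sat_cons x y u v).2 huv))
  · intro h X u v hu hv huv
    obtain ⟨x, u, rfl⟩ := List.exists_cons_of_ne_nil hu
    obtain ⟨y, v, rfl⟩ := List.exists_cons_of_ne_nil hv
    exact (sat_cons x y u v).2 (h X x y u v ((sat_cons x y u v).1 huv))

theorem map_lp' {X : Type} (f : M →ₙ* N) (α : X → M) (x : X) (u : List X) :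
    f (lp (α x) (u.map α)) = lp ((f ∘ α) x) (u.map (f ∘ α)) := by
  rw [map_lp, List.map_map]; rfl

theorem IdLe.trans {K : Type} [Semigroup K] (h : IdLe M N) (h' : IdLe N K) : IdLe M K :=
  fun X u v hu hv huv => h' X u v hu hv (h X u v hu hv huv)

theorem idLe_inj (f : N →ₙ* M) (hf : Injective f) : IdLe M N :=
  idLe_iff.2 fun _ x y u v h α => hf (by rw [map_lp', map_lp', h])

theorem idLe_surj (f : M →ₙ* N) (hf : Surjective f) : IdLe M N :=
  idLe_iff.2 fun _ x y u v h α => by
    choose β hβ using fun z => hf (α z)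
    have : α = f ∘ β := funext fun z => (hβ z).symm
    rw [this, ← map_lp', ← map_lp', h]

theorem idLe_pi {ι : Type} (T : ι → Type) [∀ i, Semigroup (T i)] (h : ∀ i, IdLe M (T i)) :
    IdLe M (∀ i, T i) :=
  idLe_iff.2 fun X x y u v huv α => funext fun i => by
    have h1 := idLe_iff.1 (h i) X x y u v huv (Pi.evalMulHom T i ∘ α)
    rw [← map_lp', ← map_lp'] at h1
    exact h1

theorem birkhoff (h : IdLe M N) : ∃ F : Subsemigroup ((N → M) → M), ∃ f : F →ₙ* N,
    Surjective f := by
  let F : Subsemigroup ((N → M) → M) :=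
    { carrier := {g | ∃ (x : N) (u : List N), ∀ α, g α = lp (α x) (u.map α)}
      mul_mem' := by
        rintro g k ⟨x, u, hg⟩ ⟨y, v, hk⟩
        refine ⟨x, u ++ y :: v, fun α => ?_⟩
        rw [Pi.mul_apply, hg, hk, List.map_append, lp_append, ← lp_mul]
        rfl }
  have h1 : ∀ g : F, ∃ (x : N) (u : List N), ∀ α, g.1 α = lp (α x) (u.map α) := fun g => g.2
  choose x u hx using h1
  have h2 : ∀ (g : F) (y : N) (v : List N), (∀ α, g.1 α = lp (α y) (v.map α)) →
      lp (x g) (u g) = lp y v := by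
    intro g y v hv
    have := idLe_iff.1 h N (x g) y (u g) v (fun α => (hx g α).symm.trans (hv α)) id
    simpa using this
  refine ⟨F, ⟨fun g => lp (x g) (u g), fun g k => ?_⟩, fun a => ?_⟩
  · rw [h2 (g * k) (x g) (u g ++ x k :: u k) (fun α => ?_), lp_append, ← lp_mul]
    · rfl
    · show g.1 α * k.1 α = _
      rw [hx, hx, List.map_append, lp_append, ← lp_mul]
      rfl
  · exact ⟨⟨fun α => α a, a, [], fun _ => rfl⟩, h2 _ a [] (fun _ => rfl)⟩

/-- The finitely many short identities. -/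
def Ids (n : ℕ) : Set (List (Fin (n + n + 1)) × List (Fin (n + n + 1))) :=
  {p | p.1 ≠ [] ∧ p.2 ≠ [] ∧ p.1.length ≤ n ∧ p.2.length ≤ n}

theorem ids_finite (n : ℕ) : (Ids n).Finite :=
  ((List.finite_length_le _ n).prod (List.finite_length_le _ n)).subset
    fun _ hp => ⟨hp.2.2.1, hp.2.2.2⟩

theorem short_of_ids {n : ℕ} (h : ∀ p ∈ Ids n, Sat M p.1 p.2 → Sat N p.1 p.2) : Short n M N := by
  classical
  intro X u v hu hv hul hvl huv α
  have hl : ∀ x, (u ++ v).idxOf x < n + n + 1 := fun x => by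
    have := List.idxOf_le_length (l := u ++ v) (a := x)
    rw [List.length_append] at this
    omega
  let ix : X → Fin (n + n + 1) := fun x => ⟨(u ++ v).idxOf x, hl x⟩
  have h1 := h (u.map ix, v.map ix) ⟨by simpa, by simpa, by simpa, by simpa⟩
    (fun β => by rw [ev_map, ev_map, huv])
  obtain ⟨x0, -⟩ := List.exists_mem_of_ne_nil u hu
  have h2 := h1 (fun j => α ((u ++ v).getD j x0))
  have h3 : ∀ x ∈ u ++ v, ((fun j : Fin (n + n + 1) => α ((u ++ v).getD j x0)) ∘ ix) x = α x := by
    intro x hx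
    show α ((u ++ v).getD ((u ++ v).idxOf x) x0) = α x
    rw [List.getD_eq_getElem _ _ (List.idxOf_lt_length_iff.2 hx), List.getElem_idxOf]
  simp only [ev_map] at h2
  rw [ev_congr (fun x hx => h3 x (List.mem_append_left _ hx)),
    ev_congr (fun x hx => h3 x (List.mem_append_right _ hx))] at h2
  exact h2

end

/-- The multiplication table with respect to an enumeration of the elements. -/
def tab {M : Type} [Mul M] {n : ℕ} (e : Fin n ≃ M) : List (List ℕ) :=
  List.ofFn fun i => List.ofFn fun j => (e.symm (e i * e j) : ℕ)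

/-- Evaluation of a word from a table. -/
def evT (t : List (List ℕ)) (β : List ℕ) (x : ℕ) (u : List ℕ) : ℕ :=
  u.foldl (fun acc j => (t.getD acc []).getD (β.getD j 0) 0) x

theorem evT_prim (u : List ℕ) (g : List (List ℕ) × List ℕ → ℕ) (hg : Primrec g) :
    Primrec fun a : List (List ℕ) × List ℕ => evT a.1 a.2 (g a) u := by
  induction u generalizing g with
  | nil => exact hg
  | cons j u ih =>
    exact ih (fun a => (a.1.getD (g a) []).getD (a.2.getD j 0) 0)
      ((Primrec.list_getD 0).comp ((Primrec.list_getD []).comp Primrec.fst hg)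
        ((Primrec.list_getD 0).comp Primrec.snd (Primrec.const j)))

theorem all_prim (V : ℕ) (Q : List (List ℕ) × List ℕ → Prop) (hQ : PrimrecPred Q) :
    PrimrecPred fun t : List (List ℕ) =>
      ∀ γ : List ℕ, γ.length = V → (∀ x ∈ γ, x < t.length) → Q (t, γ) := by
  induction V generalizing Q with
  | zero =>
    refine (hQ.comp (Primrec.pair Primrec.id (Primrec.const []))).of_eq fun t => ?_
    simp [List.length_eq_zero_iff]
  | succ V ih =>
    have h1 : PrimrecRel fun (x : ℕ) (a : List (List ℕ) × List ℕ) => Q (a.1, x :: a.2) :=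
      hQ.comp (Primrec.pair (Primrec.fst.comp Primrec.snd)
        (Primrec.list_cons.comp Primrec.fst (Primrec.snd.comp Primrec.snd)))
    have h1' := PrimrecRel.forall_mem_list h1
    have h1'' := PrimrecRel.comp h1' (Primrec.list_range.comp (Primrec.list_length.comp
      (Primrec.fst (α := List (List ℕ)) (β := List ℕ)))) Primrec.id
    have h2 : PrimrecPred fun a : List (List ℕ) × List ℕ => ∀ x < a.1.length, Q (a.1, x :: a.2) :=
      h1''.of_eq (by simp)
    refine (ih _ h2).of_eq fun t => ⟨fun h γ hγ hx => ?_, fun h γ hγ hx x hx' => ?_⟩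
    · obtain ⟨x, γ, rfl⟩ := List.exists_cons_of_length_eq_add_one hγ
      exact h γ (by simpa using hγ) (fun y hy => hx y (List.mem_cons_of_mem _ hy)) x
        (hx x List.mem_cons_self)
    · exact h (x :: γ) (by simpa using hγ) (by simpa using ⟨hx', hx⟩)

theorem evT_tab {M : Type} [Semigroup M] {n V : ℕ} (e : Fin n ≃ M) (α : Fin V → M) (a : M)
    (u : List (Fin V)) :
    evT (tab e) (List.ofFn fun j => (e.symm (α j) : ℕ)) (e.symm a) (u.map Fin.val) =
      e.symm (lp a (u.map α)) := by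
  induction u generalizing a with
  | nil => rfl
  | cons j u ih =>
    have h1 : ((tab e).getD (e.symm a) []).getD
        ((List.ofFn fun j => (e.symm (α j) : ℕ)).getD j 0) 0 = e.symm (a * α j) := by
      simp [tab, List.getD_eq_getElem?_getD]
    show evT _ _ (((tab e).getD (e.symm a) []).getD
        ((List.ofFn fun j => (e.symm (α j) : ℕ)).getD j 0) 0) _ = _
    rw [h1, ih]
    rfl

theorem sat_prim {V : ℕ} (u v : List (Fin V)) (hu : u ≠ []) (hv : v ≠ []) :
    ∃ Q : List (List ℕ) → Prop, PrimrecPred Q ∧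
      ∀ (M : Type) [Semigroup M] (n : ℕ) (e : Fin n ≃ M), Q (tab e) ↔ Sat M u v := by
  obtain ⟨x, u, rfl⟩ := List.exists_cons_of_ne_nil hu
  obtain ⟨y, v, rfl⟩ := List.exists_cons_of_ne_nil hv
  refine ⟨_, all_prim V (fun a => evT a.1 a.2 (a.2.getD x 0) (u.map Fin.val) =
    evT a.1 a.2 (a.2.getD y 0) (v.map Fin.val)) (Primrec.eq.comp
      (evT_prim _ _ ((Primrec.list_getD 0).comp Primrec.snd (Primrec.const _)))
      (evT_prim _ _ ((Primrec.list_getD 0).comp Primrec.snd (Primrec.const _)))), ?_⟩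
  intro M _ n e
  have h0 : ∀ (α : Fin V → M) (z : Fin V),
      (List.ofFn fun j => (e.symm (α j) : ℕ)).getD z 0 = e.symm (α z) := by
    intro α z
    simp [List.getD_eq_getElem?_getD]
  have hlen : (tab e).length = n := by simp [tab]
  rw [sat_cons, hlen]
  constructor
  · intro h α
    have h1 := h (List.ofFn fun j => (e.symm (α j) : ℕ)) (by simp) (by simp)
    simp only [h0, evT_tab] at h1
    exact e.symm.injective (Fin.ext h1)
  · intro h γ hγ hx
    obtain ⟨α, h1⟩ : ∃ α : Fin V → M, γ = List.ofFn fun j => (e.symm (α j) : ℕ) := by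
      subst hγ
      exact ⟨fun j => e ⟨γ[j], hx _ (List.getElem_mem _)⟩, by simp⟩
    subst h1
    simp only [h0, evT_tab]
    rw [h]

theorem fin_all {α ι : Type} [Primcodable α] {s : Set ι} (hs : s.Finite) (Q : ι → α → Prop)
    (hQ : ∀ i ∈ s, PrimrecPred (Q i)) : PrimrecPred fun a => ∀ i ∈ s, Q i a := by
  induction s, hs using Set.Finite.induction_on with
  | empty => exact (Primrec.eq.comp (Primrec.const (0 : ℕ)) (Primrec.const 0)).of_eq (by simp)
  | insert _ _ ih =>
    exact ((hQ _ (Set.mem_insert _ _)).and (ih fun i hi => hQ i (Set.mem_insert_of_mem _ hi))).of_eq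
      (by simp)

theorem fin_ex {α ι : Type} [Primcodable α] {s : Set ι} (hs : s.Finite) (Q : ι → α → Prop)
    (hQ : ∀ i ∈ s, PrimrecPred (Q i)) : PrimrecPred fun a => ∃ i ∈ s, Q i a :=
  (fin_all hs (fun i a => ¬ Q i a) (fun i hi => (hQ i hi).not)).not.of_eq (by simp)

/-- Satisfying all identities of one of finitely many finite sets is primitive recursive. -/
theorem types_prim (n : ℕ) (L : Set (Set (List (Fin (n + n + 1)) × List (Fin (n + n + 1)))))
    (hL : ∀ τ ∈ L, τ ⊆ Ids n) :
    ∃ f : List (List ℕ) → Bool, Computable f ∧ ∀ (M : Type) [Semigroup M] (m : ℕ) (e : Fin m ≃ M),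
      f (tab e) = true ↔ ∃ τ ∈ L, ∀ p ∈ τ, Sat M p.1 p.2 := by
  classical
  have h1 : ∀ p : List (Fin (n + n + 1)) × List (Fin (n + n + 1)), ∃ Q : List (List ℕ) → Prop,
      p ∈ Ids n → PrimrecPred Q ∧
      ∀ (M : Type) [Semigroup M] (n : ℕ) (e : Fin n ≃ M), Q (tab e) ↔ Sat M p.1 p.2 := by
    intro p
    by_cases hp : p ∈ Ids n
    · obtain ⟨Q, hQ⟩ := sat_prim p.1 p.2 hp.1 hp.2.1
      exact ⟨Q, fun _ => hQ⟩
    · exact ⟨fun _ => True, fun h => absurd h hp⟩
  choose Q hQ using h1
  have h2 := fin_ex ((ids_finite n).finite_subsets.subset hL) (fun τ t => ∀ p ∈ τ, Q p t)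
    (fun τ hτ => fin_all ((ids_finite n).subset (hL τ hτ)) Q fun p hp => (hQ p (hL τ hτ hp)).1)
  refine ⟨fun t => decide (∃ τ ∈ L, ∀ p ∈ τ, Q p t), h2.decide.to_comp, fun M _ m e => ?_⟩
  rw [decide_eq_true_iff]
  refine exists_congr fun τ => and_congr_right fun hτ => forall_congr' fun p =>
    forall_congr' fun hp => (hQ p (hL τ hτ hp)).2 M m e

end Pool.Agent.H.MP_88bd66_lc
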